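import Pool.Agent.H560.SI.Stm
import Pool.Agent.H996.Par.Low

/-!
# Project SI (helper560), part T1: the window with a sieve, and the count
-/

set_option autoImplicit false

namespace Pool.Agent.H996.SI

open Polynomial Finset
open scoped Classical
open Pool.Agent.H694.Typ
open Pool.Agent.H985.Chow (mob)
open Pool.Agent.H985.Par (Sft S_sw)
open Pool.Agent.H560.SI

section basic

variable {K : Type} [Field K]

theorem mob_vals (F : K[X]) : mob F = 0 ∨ mob F = 1 ∨ mob F = -1 := by
  rw [mob]
  split_ifs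
  · exact Or.inr (neg_one_pow_eq_or ℤ _)
  · exact Or.inl rfl

theorem mob_zero {F : K[X]} (h : mob F = 0) : ¬ Squarefree F := by
  intro hs
  rw [mob, if_pos hs] at h
  exact pow_ne_zero _ (by norm_num) h

theorem abs_mob (F : K[X]) : |(mob F : ℝ)| ≤ 1 := by
  rcases mob_vals F with h | h | h <;> rw [h] <;> simp

theorem mob_ind (F : K[X]) {σ : ℤ} (hσ : σ = 1 ∨ σ = -1) :
    (if mob F = σ then (1 : ℝ) else 0) =
      (1 - (if mob F = 0 then (1 : ℝ) else 0) + σ * (mob F : ℝ)) / 2 := by
  rcases mob_vals F with h | h | h <;> rcases hσ with rfl | rfl <;> rw [h] <;> norm_num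

/-- a non-squarefree polynomial has a monic irreducible square factor -/
theorem exists_sq {F : K[X]} (hF : F ≠ 0) (h : ¬ Squarefree F) :
    ∃ P : K[X], P.Monic ∧ Irreducible P ∧ P ^ 2 ∣ F := by
  rw [squarefree_iff_irreducible_sq_not_dvd_of_ne_zero hF] at h
  push Not at h
  obtain ⟨P, hP, hPd⟩ := h
  have hP0 : P ≠ 0 := hP.ne_zero
  have hass : Associated (normalize P) P := normalize_associated P
  have hN : (normalize P).Monic := monic_normalize hP0
  have hNi : Irreducible (normalize P) := hass.irreducible_iff.2 hP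
  refine ⟨normalize P, hN, hNi, ?_⟩
  rw [pow_two]
  exact (Associated.mul_mul hass hass).dvd.trans hPd

variable [CharP K 2]

theorem add_sq' (a b : K[X]) : (a + b) ^ 2 = a ^ 2 + b ^ 2 := CharTwo.add_sq a b

theorem sq_inj' {a b : K[X]} (h : a ^ 2 = b ^ 2) : a = b := by
  have h1 : (a + b) ^ 2 = 0 := by rw [add_sq', h, CharTwo.add_self_eq_zero]
  have h2 : a + b = 0 := pow_eq_zero_iff (two_ne_zero) |>.1 h1
  exact CharTwo.add_eq_zero.1 h2

theorem der_sq (m t : K[X]) : derivative (m * (m * t ^ 2)) = 0 := by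
  have h : m * (m * t ^ 2) = (m * t) ^ 2 := by ring
  rw [h, derivative_pow]
  have h2 : ((2 : ℕ) : K) = 0 := CharP.cast_eq_zero K 2
  rw [h2, C_0, zero_mul, zero_mul]

theorem der_add (m F t : K[X]) : derivative (m * (F + m * t ^ 2)) = derivative (m * F) := by
  rw [mul_add, derivative_add, der_sq, add_zero]

/-- an irreducible square factor divides `s` -/
theorem dvd_s {m F s P : K[X]} (hP : Irreducible P) (hd : P ^ 2 ∣ F)
    (hs : derivative (m * F) = s ^ 2) : P ∣ s := by
  have h1 : P ∣ derivative (m * F) := by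
    obtain ⟨c, hc⟩ := hd
    rw [hc, show m * (P ^ 2 * c) = P ^ 2 * (m * c) by ring, derivative_mul, derivative_pow]
    have h2 : ((2 : ℕ) : K) = 0 := CharP.cast_eq_zero K 2
    rw [h2, C_0, zero_mul, zero_mul, zero_mul, zero_add, pow_two, mul_assoc]
    exact dvd_mul_right _ _
  rw [hs] at h1
  exact hP.prime.dvd_of_dvd_pow h1

end basic

section count

variable {K : Type} [Field K] [Fintype K]

/-- The polynomials of degree less than `L`. -/
noncomputable def Pn (K : Type) [Field K] [Fintype K] (L : ℕ) : Finset K[X] :=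
  (univ : Finset (Fin L → K)).image (pol : (Fin L → K) → K[X])

theorem mem_Pn {L : ℕ} {f : K[X]} : f ∈ Pn K L ↔ f.degree < (L : WithBot ℕ) := by
  unfold Pn
  rw [mem_image]
  constructor
  · rintro ⟨c, -, rfl⟩
    exact pol_degree c
  · intro h
    obtain ⟨c, hc⟩ := exists_pol h
    exact ⟨c, mem_univ _, hc⟩

theorem card_Pn (L : ℕ) : (Pn K L).card = Fintype.card K ^ L := by
  unfold Pn
  rw [card_image_of_injective _ pol_inj, card_univ, Fintype.card_fun, Fintype.card_fin]

theorem class_card {P : K[X]} (hP : P.Monic) {L : ℕ} (r : K[X]) :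
    ((Pn K L).filter (fun t => P ∣ t - r)).card ≤ Fintype.card K ^ (L - P.natDegree) := by
  rw [← card_Pn]
  refine card_le_card_of_injOn (fun t => t /ₘ P) ?_ ?_
  · intro t ht
    rw [Finset.mem_coe, mem_filter, mem_Pn] at ht
    rw [Finset.mem_coe, mem_Pn]
    change (t /ₘ P).degree < _
    by_cases h0 : t /ₘ P = 0
    · rw [h0, degree_zero]
      exact WithBot.bot_lt_coe _
    · have h1 : P.degree ≤ t.degree := by
        by_contra h
        exact h0 ((divByMonic_eq_zero_iff hP).2 (not_le.1 h))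
      have ht0 : t ≠ 0 := by
        rintro rfl
        rw [zero_divByMonic] at h0
        exact h0 rfl
      have h2 : P.natDegree ≤ t.natDegree := natDegree_le_natDegree h1
      have h3 : t.natDegree < L := (natDegree_lt_iff_degree_lt ht0).2 ht.1
      rw [← natDegree_lt_iff_degree_lt h0, natDegree_divByMonic _ hP]
      omega
  · intro t ht t' ht' h
    rw [Finset.mem_coe, mem_filter] at ht ht'
    have h1 : ∀ x : K[X], P ∣ x - r → x %ₘ P = r %ₘ P := by
      intro x hx
      have h2 := (modByMonic_eq_zero_iff_dvd hP).2 hx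
      rw [sub_modByMonic] at h2
      exact sub_eq_zero.1 h2
    have h2 : t /ₘ P = t' /ₘ P := h
    rw [← modByMonic_add_div t P, ← modByMonic_add_div t' P, h1 t ht.2, h1 t' ht'.2, h2]

theorem class_card' {P : K[X]} (hP : P.Monic) {L : ℕ} (hL : P.natDegree ≤ L) (r : K[X]) :
    (((Pn K L).filter (fun t => P ∣ t - r)).card : ℝ) ≤
      (Fintype.card K : ℝ) ^ L * wt K P.natDegree := by
  have hq := q_ge (k := K)
  have h1 : (((Pn K L).filter (fun t => P ∣ t - r)).card : ℝ) ≤
      (Fintype.card K : ℝ) ^ (L - P.natDegree) := by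
    exact_mod_cast class_card hP r
  rw [wt, ← pow_sub₀ _ (by positivity) hL]
  exact h1

/-- the sum over large irreducible polynomials -/
theorem large_sum (z D : ℕ) :
    ∑ P ∈ (PU K D).filter (fun P => z < P.natDegree), wt K P.natDegree ^ 2 ≤ wt K z := by
  have h1 : (PU K D).filter (fun P => z < P.natDegree) ⊆
      (Finset.Icc (z + 1) D).biUnion (fun j => Irn K j) := by
    intro P hP
    rw [mem_filter, mem_PU] at hP
    rw [mem_biUnion]
    exact ⟨P.natDegree, mem_Icc.2 ⟨by omega, hP.1.2.2⟩, mem_Irn.2 ⟨hP.1.1, rfl, hP.1.2.1⟩⟩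
  refine (sum_le_sum_of_subset_of_nonneg h1 fun _ _ _ => sq_nonneg _).trans ?_
  rw [sum_biUnion]
  · refine (sum_le_sum (g := fun j => wt K j) fun j hj => ?_).trans
      (Pool.Agent.H996.Par.geo_wt_le (K := K) z D)
    rw [mem_Icc] at hj
    rw [sum_congr rfl (fun P hP => by rw [(mem_Irn.1 hP).2.1]), sum_const, nsmul_eq_mul]
    have h2 := Pool.Agent.H996.Par.irn_wt (K := K) j (by omega)
    have h3 := wt_nonneg (k := K) j
    have h4 : (1 : ℝ) / j ≤ 1 := by
      rw [div_le_one (by exact_mod_cast (show 0 < j by omega))]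
      exact_mod_cast (show 1 ≤ j by omega)
    calc ((Irn K j).card : ℝ) * wt K j ^ 2 = (((Irn K j).card : ℝ) * wt K j) * wt K j := by ring
      _ ≤ 1 * wt K j := mul_le_mul_of_nonneg_right (h2.trans h4) h3
      _ = _ := one_mul _
  · intro a _ b _ hab
    rw [Function.onFun, Finset.disjoint_left]
    intro P hP hP'
    exact hab ((mem_Irn.1 hP).2.1.symm.trans (mem_Irn.1 hP').2.1)

end count

end Pool.Agent.H996.SI
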