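import Pool.Agent.H996.SI.Win

/-!
# Project SI (helper560), part T1: the count over all fibres
-/

set_option autoImplicit false

namespace Pool.Agent.H996.SI

open Polynomial Finset
open scoped Classical
open Pool.Agent.H694.Typ
open Pool.Agent.H985.Chow (mob)
open Pool.Agent.H985.Par (Sft S_sw)
open Pool.Agent.H560.SI

variable {K : Type} [Field K] [Fintype K]

omit [Fintype K] in
theorem deg_mt {m t : K[X]} {u L : ℕ} (hm : m ≠ 0) (hmu : m.natDegree = u)
    (ht : t.degree < (L : WithBot ℕ)) : (m * t ^ 2).degree < ((u + 2 * L : ℕ) : WithBot ℕ) := by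
  by_cases h0 : t = 0
  · rw [h0, zero_pow two_ne_zero, mul_zero, degree_zero]
    exact WithBot.bot_lt_coe _
  · have h1 := (natDegree_lt_iff_degree_lt h0).2 ht
    rw [degree_eq_natDegree (mul_ne_zero hm (pow_ne_zero 2 h0)),
      natDegree_mul hm (pow_ne_zero 2 h0), natDegree_pow, hmu]
    exact_mod_cast (show u + 2 * t.natDegree < u + 2 * L by omega)

theorem add_Itv {n u L : ℕ} {g F m t : K[X]} (hm : m ≠ 0) (hmu : m.natDegree = u)
    (hun : u + 2 * L ≤ n) (hF : F ∈ Itv K n (u + 2 * L) g) (ht : t ∈ Pn K L) :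
    F + m * t ^ 2 ∈ Itv K n (u + 2 * L) g := by
  rw [Itv, mem_filter, mem_Mn] at hF ⊢
  have h1 := deg_mt hm hmu (mem_Pn.1 ht)
  have h2 : (m * t ^ 2).degree < F.degree := by
    rw [degree_eq_natDegree hF.1.1.ne_zero, hF.1.2]
    exact h1.trans_le (by exact_mod_cast hun)
  refine ⟨⟨hF.1.1.add_of_left h2, by rw [natDegree_add_eq_left_of_degree_lt h2, hF.1.2]⟩, ?_⟩
  have h3 : F + m * t ^ 2 - g = (F - g) + m * t ^ 2 := by ring
  rw [h3]
  exact (degree_add_le _ _).trans_lt (max_lt hF.2 h1)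

/-- every polynomial is counted at most once -/
theorem cnt [CharP K 2] {n u L N H z : ℕ} {g m S : K[X]} (Fs : K[X] → K[X]) (σ : ℤ)
    (hm : m ≠ 0) (hmu : m.natDegree = u) (hun : u + 2 * L ≤ n)
    (hF : ∀ s ∈ SmI K N H (L / 8) S, Fs s ∈ Itv K n (u + 2 * L) g ∧
      derivative (m * Fs s) = s ^ 2) :
    ∑ s ∈ SmI K N H (L / 8) S,
      ((Sf m (Fs s) L z).filter (fun t => mob (Fs s + m * t ^ 2) = σ)).card ≤
      ((Itv K n (u + 2 * L) g).filter (fun f => mob f = σ)).card := by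
  rw [← card_sigma]
  refine card_le_card_of_injOn (fun p => Fs p.1 + m * p.2 ^ 2) ?_ ?_
  · rintro ⟨s, t⟩ hp
    rw [Finset.mem_coe, mem_sigma, mem_filter, Sf, mem_filter] at hp
    rw [Finset.mem_coe, mem_filter]
    exact ⟨add_Itv hm hmu hun (hF s hp.1).1 hp.2.1.1, hp.2.2⟩
  · rintro ⟨s, t⟩ hp ⟨s', t'⟩ hp' h
    rw [Finset.mem_coe, mem_sigma, mem_filter, Sf, mem_filter] at hp hp'
    have h1 : Fs s + m * t ^ 2 = Fs s' + m * t' ^ 2 := h
    have h2 : s ^ 2 = s' ^ 2 := by
      have h3 := der_add m (Fs s) t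
      have h4 := der_add m (Fs s') t'
      rw [(hF s hp.1).2] at h3
      rw [(hF s' hp'.1).2] at h4
      rw [← h3, ← h4, h1]
    have h3 : s = s' := sq_inj' h2
    subst h3
    have h4 : m * t ^ 2 = m * t' ^ 2 := add_left_cancel h1
    have h5 : t = t' := sq_inj' (mul_left_cancel₀ hm h4)
    rw [h5]

/-- the values with a square factor are rare -/
theorem nsq (hr : S_rtc) [CharP K 2] {N H u L z : ℕ} {m S : K[X]} (Fs : K[X] → K[X])
    (hm : m.Monic) (hmi : Irreducible m) (hmu : m.natDegree = u) (hLu : L < 8 * u) (hLH : L ≤ H)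
    (hF0 : ∀ s ∈ SmI K N H (L / 8) S, ∀ t ∈ Pn K L, Fs s + m * t ^ 2 ≠ 0)
    (hd : ∀ s ∈ SmI K N H (L / 8) S, derivative (m * Fs s) = s ^ 2) :
    ∑ s ∈ SmI K N H (L / 8) S,
      (((Sf m (Fs s) L z).filter (fun t => mob (Fs s + m * t ^ 2) = 0)).card : ℝ) ≤
      (Fintype.card K : ℝ) ^ (L + H) * wt K z := by
  have hq := q_ge (k := K)
  set q : ℝ := (Fintype.card K : ℝ) with hqd
  have h1 : ∀ s ∈ SmI K N H (L / 8) S,
      (((Sf m (Fs s) L z).filter (fun t => mob (Fs s + m * t ^ 2) = 0)).card : ℝ) ≤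
      ∑ P ∈ (PU K (L / 8)).filter (fun P => z < P.natDegree),
        if P ∣ s then q ^ L * wt K P.natDegree else 0 := by
    intro s hs
    have hcl : ∀ P : K[X], ∃ r : K[X], P.Monic ∧ Irreducible P ∧ P ≠ m →
        ∀ t : K[X], P ∣ Fs s + m * t ^ 2 ↔ P ∣ t - r := by
      intro P
      by_cases h : P.Monic ∧ Irreducible P ∧ P ≠ m
      · obtain ⟨r, hr1, hr2⟩ := hr K m (Fs s) P hm hmi h.1 h.2.1 h.2.2
        exact ⟨r, fun _ => hr2⟩
      · exact ⟨0, fun h' => absurd h' h⟩
    choose rr hrr using hcl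
    have hs' := hs
    rw [SmI, mem_filter, mem_Mn] at hs'
    have h2 : (Sf m (Fs s) L z).filter (fun t => mob (Fs s + m * t ^ 2) = 0) ⊆
        ((PU K (L / 8)).filter (fun P => z < P.natDegree ∧ P ∣ s)).biUnion
          (fun P => (Pn K L).filter (fun t => P ∣ t - rr P)) := by
      intro t ht
      rw [mem_filter, Sf, mem_filter] at ht
      obtain ⟨P, hP, hPi, hPd⟩ := exists_sq (hF0 s hs t ht.1.1) (mob_zero ht.2)
      have hPd' : P ∣ Fs s + m * t ^ 2 := (dvd_pow_self P two_ne_zero).trans hPd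
      have hPs : P ∣ s := dvd_s hPi hPd (by rw [der_add, hd s hs])
      have hPL : P.natDegree ≤ L / 8 := hs'.2.2.2 P hP hPi hPs
      have hPm : P ≠ m := by
        rintro rfl
        omega
      rw [mem_biUnion]
      refine ⟨P, ?_, ?_⟩
      · rw [mem_filter, mem_PU]
        exact ⟨⟨hP, hPi, hPL⟩, ht.1.2 P hP hPi hPd', hPs⟩
      · rw [mem_filter]
        exact ⟨ht.1.1, (hrr P ⟨hP, hPi, hPm⟩ t).1 hPd'⟩
    have h3 := (card_le_card h2).trans card_biUnion_le
    have h4 : (((Sf m (Fs s) L z).filter (fun t => mob (Fs s + m * t ^ 2) = 0)).card : ℝ) ≤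
        ∑ P ∈ (PU K (L / 8)).filter (fun P => z < P.natDegree ∧ P ∣ s),
          (((Pn K L).filter (fun t => P ∣ t - rr P)).card : ℝ) := by exact_mod_cast h3
    refine h4.trans ?_
    rw [← filter_filter, ← sum_filter]
    refine sum_le_sum fun P hP => ?_
    rw [mem_filter, mem_filter, mem_PU] at hP
    exact class_card' hP.1.1.1 (by omega) _
  refine (sum_le_sum h1).trans ?_
  rw [sum_comm]
  have h2 : ∀ P ∈ (PU K (L / 8)).filter (fun P => z < P.natDegree),
      (∑ s ∈ SmI K N H (L / 8) S, if P ∣ s then q ^ L * wt K P.natDegree else 0) ≤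
      q ^ (L + H) * wt K P.natDegree ^ 2 := by
    intro P hP
    rw [mem_filter, mem_PU] at hP
    rw [← sum_filter, sum_const, nsmul_eq_mul]
    have h3 : ((SmI K N H (L / 8) S).filter (fun s => P ∣ s)).card ≤
        ((Pn K H).filter (fun w => P ∣ w - -S)).card := by
      refine card_le_card_of_injOn (fun s => s - S) ?_ ?_
      · intro s hs
        rw [Finset.mem_coe, mem_filter, SmI, mem_filter] at hs
        rw [Finset.mem_coe, mem_filter, mem_Pn]
        refine ⟨hs.1.2.1, ?_⟩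
        rw [sub_neg_eq_add, sub_add_cancel]
        exact hs.2
      · intro s _ s' _ h
        exact sub_left_injective h
    have h4 : (((SmI K N H (L / 8) S).filter (fun s => P ∣ s)).card : ℝ) ≤
        q ^ H * wt K P.natDegree :=
      le_trans (by exact_mod_cast h3) (class_card' hP.1.1 (by omega) _)
    have h5 : 0 ≤ q ^ L * wt K P.natDegree := by
      have := wt_nonneg (k := K) P.natDegree
      positivity
    calc (((SmI K N H (L / 8) S).filter (fun s => P ∣ s)).card : ℝ) * (q ^ L * wt K P.natDegree)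
        ≤ (q ^ H * wt K P.natDegree) * (q ^ L * wt K P.natDegree) :=
          mul_le_mul_of_nonneg_right h4 h5
      _ = _ := by ring
  refine (sum_le_sum h2).trans ?_
  rw [← mul_sum]
  exact mul_le_mul_of_nonneg_left (large_sum z (L / 8)) (by positivity)

/-- the values of one sign in one window -/
theorem one_sign {m F : K[X]} {L z : ℕ} {σ : ℤ} (hσ : σ = 1 ∨ σ = -1) {V : ℝ}
    (h1 : 7 / 8 * V ≤ ((Sf m F L z).card : ℝ))
    (h2 : |∑ t ∈ Sf m F L z, (mob (F + m * t ^ 2) : ℝ)| ≤ 1 / 4 * V) :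
    5 / 16 * V - (((Sf m F L z).filter (fun t => mob (F + m * t ^ 2) = 0)).card : ℝ) / 2 ≤
      ((Sf m F L z).filter (fun t => mob (F + m * t ^ 2) = σ)).card := by
  have h3 : (((Sf m F L z).filter (fun t => mob (F + m * t ^ 2) = σ)).card : ℝ) =
      (((Sf m F L z).card : ℝ) - ((Sf m F L z).filter (fun t => mob (F + m * t ^ 2) = 0)).card +
        σ * ∑ t ∈ Sf m F L z, (mob (F + m * t ^ 2) : ℝ)) / 2 := by
    rw [card_filter, card_filter, card_eq_sum_ones]
    push_cast
    rw [sum_congr rfl (fun t _ => mob_ind (F + m * t ^ 2) hσ), ← sum_div, sum_add_distrib,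
      sum_sub_distrib, mul_sum]
  have h4 : -(1 / 4 * V) ≤ (σ : ℝ) * ∑ t ∈ Sf m F L z, (mob (F + m * t ^ 2) : ℝ) := by
    obtain ⟨h5, h6⟩ := abs_le.1 h2
    rcases hσ with rfl | rfl
    · push_cast
      linarith
    · push_cast
      linarith
  rw [h3]
  linarith

end Pool.Agent.H996.SI
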