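import Pool.Agent.H996.SI.Cnt

/-!
# Project SI (helper560), part T1: both signs with a positive proportion
-/

set_option autoImplicit false

namespace Pool.Agent.H996.SI

open Polynomial Finset
open scoped Classical
open Pool.Agent.H694.Typ
open Pool.Agent.H985.Chow (mob)
open Pool.Agent.H985.Par (Sft S_sw)
open Pool.Agent.H560.SI

/-- the parameters -/
theorem params {θ : ℝ} (h1 : 1 / 3 < θ) (h2 : θ ≤ 1 / 2) (z₀ N₀ : ℕ) : ∃ n₀ : ℕ, ∀ n : ℕ, n₀ ≤ n →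
    ∃ u L N : ℕ, n + u = 2 * N + 1 ∧ (3 * θ - 1) / 16 * n ≤ (L : ℝ) ∧
      ((u + 2 * L : ℕ) : ℝ) ≤ θ * n ∧ u + 2 * L ≤ n ∧ 1 ≤ L ∧ L < 8 * u ∧ u + L ≤ N ∧
      (1 / 2 + (3 * θ - 1) / 16) * N ≤ ((u + L : ℕ) : ℝ) ∧
      (3 * θ - 1) / 80 * N ≤ ((L / 8 : ℕ) : ℝ) ∧ z₀ ≤ u ∧ N₀ ≤ N := by
  obtain ⟨t, ht⟩ : ∃ t : ℝ, t = 3 * θ - 1 := ⟨_, rfl⟩
  have ht0 : 0 < t := by linarith
  have hθ : θ = (1 + t) / 3 := by linarith
  have ht1 : t ≤ 1 / 2 := by linarith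
  rw [← ht]
  refine ⟨⌈1000 / t⌉₊ + 3 * z₀ + 2 * N₀ + 1000, fun n hn => ?_⟩
  have hn1 : 1000 / t ≤ n := (Nat.le_ceil _).trans (by exact_mod_cast (by omega : ⌈1000 / t⌉₊ ≤ n))
  have hn2 : (1000 : ℝ) ≤ n := by exact_mod_cast (by omega : 1000 ≤ n)
  have hn3 : 3 * (z₀ : ℝ) + 1000 ≤ n := by exact_mod_cast (by omega : 3 * z₀ + 1000 ≤ n)
  have htn : 1000 ≤ t * n := by
    rw [div_le_iff₀ ht0] at hn1
    linarith
  have htn' : t * n ≤ n / 2 := by nlinarith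
  -- the level
  obtain ⟨h₀, hh1, hh2, hh3⟩ : ∃ h₀ : ℕ, (h₀ : ℝ) ≤ θ * n ∧ θ * n - 2 ≤ (h₀ : ℝ) ∧
      (n + h₀) % 2 = 1 := by
    have hf1 : ((⌊θ * n⌋₊ : ℕ) : ℝ) ≤ θ * n := Nat.floor_le (by positivity)
    have hf2 : θ * n < (⌊θ * n⌋₊ : ℕ) + 1 := Nat.lt_floor_add_one _
    have hf3 : 1 ≤ ⌊θ * n⌋₊ := by
      rw [Nat.one_le_floor_iff]
      nlinarith
    by_cases h : (n + ⌊θ * n⌋₊) % 2 = 1
    · exact ⟨_, hf1, by linarith, h⟩
    · refine ⟨⌊θ * n⌋₊ - 1, ?_, ?_, by omega⟩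
      · rw [Nat.cast_sub hf3]
        push_cast
        linarith
      · rw [Nat.cast_sub hf3]
        push_cast
        linarith
  obtain ⟨L, hL1, hL2⟩ : ∃ L : ℕ, (L : ℝ) ≤ t / 8 * n ∧ t / 8 * n - 1 ≤ (L : ℝ) :=
    ⟨⌊t / 8 * n⌋₊, Nat.floor_le (by positivity), by
      have := Nat.lt_floor_add_one (t / 8 * n)
      linarith⟩
  have hθn : θ * n = n / 3 + t * n / 3 := by rw [hθ]; ring
  have hLh : 2 * L ≤ h₀ := by
    have : (2 * L : ℝ) ≤ h₀ := by linarith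
    exact_mod_cast this
  obtain ⟨u, hu⟩ : ∃ u : ℕ, h₀ = u + 2 * L := ⟨h₀ - 2 * L, by omega⟩
  have huR : (h₀ : ℝ) = u + 2 * L := by rw [hu]; push_cast; ring
  have hu1 : n / 3 - 2 ≤ (u : ℝ) := by linarith
  obtain ⟨N, hN⟩ : ∃ N : ℕ, n + u = 2 * N + 1 := ⟨(n + u) / 2, by omega⟩
  have hNR : (n : ℝ) + u = 2 * N + 1 := by exact_mod_cast hN
  have hL8 : (L : ℝ) / 8 - 1 ≤ ((L / 8 : ℕ) : ℝ) := by
    have h3 : L < 8 * (L / 8) + 8 := by omega
    have h4 : (L : ℝ) < 8 * ((L / 8 : ℕ) : ℝ) + 8 := by exact_mod_cast h3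
    linarith
  have hNn : (N : ℝ) ≤ n := by
    have : (u : ℝ) ≤ n := by
      have : (0 : ℝ) ≤ L := Nat.cast_nonneg L
      linarith
    linarith
  have hN0 : (0 : ℝ) ≤ N := Nat.cast_nonneg N
  refine ⟨u, L, N, hN, ?_, ?_, ?_, ?_, ?_, ?_, ?_, ?_, ?_, ?_⟩
  · linarith
  · rw [← hu]
    exact hh1
  · have h3 : ((u + 2 * L : ℕ) : ℝ) ≤ n := by
      rw [← hu]
      linarith
    exact_mod_cast h3
  · have h3 : (1 : ℝ) ≤ L := by linarith
    exact_mod_cast h3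
  · have h3 : (L : ℝ) < 8 * u := by linarith
    exact_mod_cast h3
  · have h3 : ((2 * (u + L) : ℕ) : ℝ) < ((2 * N + 1 : ℕ) : ℝ) := by
      push_cast
      linarith
    have h4 : 2 * (u + L) < 2 * N + 1 := by exact_mod_cast h3
    omega
  · push_cast
    have h3 : t * N ≤ t * n := mul_le_mul_of_nonneg_left hNn ht0.le
    nlinarith
  · have h3 : t * N ≤ t * n := mul_le_mul_of_nonneg_left hNn ht0.le
    linarith
  · have h3 : (z₀ : ℝ) ≤ u := by linarith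
    exact_mod_cast h3
  · omega

/-- irreducible polynomials exist -/
theorem exists_irr (K : Type) [Field K] [Fintype K] {u : ℕ} (hu : 4 ≤ u) :
    ∃ m : K[X], m.Monic ∧ Irreducible m ∧ m.natDegree = u := by
  have h1 := irn_ge (k := K) (d := u) (by omega)
  have hq1 : 2 ≤ Fintype.card K := Fintype.one_lt_card
  have h2 : (Irn K u).Nonempty := by
    rw [← card_pos]
    by_contra hcon
    have h3 : (Irn K u).card = 0 := by omega
    rw [h3, mul_zero, zero_add] at h1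
    have h4 : Fintype.card K ^ (2 + u / 2) ≤ Fintype.card K ^ u :=
      Nat.pow_le_pow_right (by omega) (by omega)
    rw [pow_add] at h4
    have h5 : 0 < Fintype.card K ^ (u / 2) := by positivity
    have h6 : 4 ≤ Fintype.card K ^ 2 := by nlinarith
    nlinarith
  obtain ⟨m, hm⟩ := h2
  rw [mem_Irn] at hm
  exact ⟨m, hm.1, hm.2.2, hm.2.1⟩

/-- **T1.** -/
theorem t1 (hw : S_wb) (hf : S_fib) (hr : S_rtc) (hs : S_sm) (hv : S_vl) (hc : S_cut)
    (hsw : S_sw) : S_t1 := by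
  intro K _ _ _ θ' hθ'
  have hq := q_ge (k := K)
  set q : ℝ := (Fintype.card K : ℝ) with hqd
  obtain ⟨θ, hθ1, hθ2, hθ3⟩ : ∃ θ : ℝ, 1 / 3 < θ ∧ θ ≤ 1 / 2 ∧ θ ≤ θ' :=
    ⟨min θ' (1 / 2), lt_min hθ' (by norm_num), min_le_right _ _, min_le_left _ _⟩
  have ht0 : 0 < 3 * θ - 1 := by linarith
  obtain ⟨cs, hcs, N₀, hS⟩ := hs K ((3 * θ - 1) / 80) ((3 * θ - 1) / 16) (by positivity)
    (by positivity)
  obtain ⟨cv, hcv, hV⟩ := hv K
  -- the level of the sieve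
  obtain ⟨z, hz1, hz2⟩ : ∃ z : ℕ, 1 ≤ z ∧ wt K z ≤ cs * cv / (8 * z) := by
    obtain ⟨z, hz⟩ := exists_nat_ge (8 * (8 / (cs * cv)) / 1 ^ 2)
    refine ⟨z + 1, by omega, ?_⟩
    have h1 := lin_le_rpow (q := q) (b := 1) (C := 8 / (cs * cv)) hq one_pos (z + 1)
      (hz.trans (by push_cast; linarith))
    rw [one_mul, Real.rpow_natCast] at h1
    have h2 : (0 : ℝ) < ((z + 1 : ℕ) : ℝ) := by positivity
    have h3 : 0 < q ^ (z + 1) := by positivity
    rw [wt, ← hqd, inv_eq_one_div, div_le_div_iff₀ h3 (by positivity)]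
    have h4 : cs * cv * (8 / (cs * cv) * ((z + 1 : ℕ) : ℝ)) = 8 * ((z + 1 : ℕ) : ℝ) := by
      field_simp
    have h5 := mul_le_mul_of_nonneg_left h1 (by positivity : 0 ≤ cs * cv)
    rw [h4] at h5
    linarith
  obtain ⟨κ, hκ, n₁, hW⟩ := win hw hr hsw hv K ((3 * θ - 1) / 16) (by positivity)
  obtain ⟨n₂, hP⟩ := params hθ1 hθ2 (z + 4) N₀
  have hz0 : (0 : ℝ) < z := by exact_mod_cast hz1
  refine ⟨cs * cv / (4 * z), by positivity, max n₁ (max n₂ (⌈z / κ⌉₊ + 1)), ?_⟩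
  intro n hn h hh hhn g σ hg hgn hσ
  have hn1 : n₁ ≤ n := (le_max_left _ _).trans hn
  have hn2 : n₂ ≤ n := ((le_max_left _ _).trans (le_max_right _ _)).trans hn
  have hn3 : ⌈z / κ⌉₊ + 1 ≤ n := ((le_max_right _ _).trans (le_max_right _ _)).trans hn
  have hzn : (z : ℝ) ≤ κ * n := by
    have h1 : (z : ℝ) / κ ≤ n := (Nat.le_ceil _).trans (by exact_mod_cast (by omega :
      ⌈(z : ℝ) / κ⌉₊ ≤ n))
    rw [div_le_iff₀ hκ] at h1
    linarith
  obtain ⟨u, L, N, hp1, hp2, hp3, hp4, hp5, hp6, hp7, hp8, hp9, hp10, hp11⟩ := hP n hn2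
  obtain ⟨m, hm, hmi, hmu⟩ := exists_irr K (u := u) (by omega)
  -- the count in the short intervals
  have key : ∀ g' : K[X], g'.Monic → g'.natDegree = n →
      cs * cv / (4 * z) * q ^ (u + 2 * L) ≤
        ((Itv K n (u + 2 * L) g').filter (fun f => mob f = σ)).card := by
    intro g' hg' hgn'
    obtain ⟨S, hSm, hSn, hSF⟩ := hf K n u L N m g' hp1 (by omega) hp5 hp4 hm hmi hmu hg' hgn'
    have hFs : ∀ s : K[X], ∃ F : K[X], (s - S).degree < ((u + L : ℕ) : WithBot ℕ) →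
        F ∈ Itv K n (u + 2 * L) g' ∧ derivative (m * F) = s ^ 2 := by
      intro s
      by_cases h1 : (s - S).degree < ((u + L : ℕ) : WithBot ℕ)
      · obtain ⟨F, hF1, hF2⟩ := hSF s h1
        exact ⟨F, fun _ => ⟨hF1, hF2⟩⟩
      · exact ⟨0, fun h2 => absurd h2 h1⟩
    choose Fs hFs using hFs
    have hmemS : ∀ s ∈ SmI K N (u + L) (L / 8) S, s.Monic ∧ s.natDegree = N ∧
        (s - S).degree < ((u + L : ℕ) : WithBot ℕ) ∧ Squarefree s ∧ Smt (L / 8) s := by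
      intro s hs1
      rw [SmI, mem_filter, mem_Mn] at hs1
      exact ⟨hs1.1.1, hs1.1.2, hs1.2⟩
    have hF : ∀ s ∈ SmI K N (u + L) (L / 8) S, Fs s ∈ Itv K n (u + 2 * L) g' ∧
        derivative (m * Fs s) = s ^ 2 := fun s hs1 => hFs s (hmemS s hs1).2.2.1
    have hcnt := cnt (z := z) Fs σ hm.ne_zero hmu hp4 hF
    have hnsq := nsq (z := z) hr Fs hm hmi hmu hp6 (by omega : L ≤ u + L)
      (fun s hs1 t ht => by
        have h1 := add_Itv hm.ne_zero hmu hp4 (hF s hs1).1 ht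
        rw [Itv, mem_filter, mem_Mn] at h1
        exact h1.1.1.ne_zero) (fun s hs1 => (hF s hs1).2)
    have hV0 := Vp_pos K z
    have hone : ∀ s ∈ SmI K N (u + L) (L / 8) S,
        5 / 16 * (Vp K z * q ^ L) -
          (((Sf m (Fs s) L z).filter (fun t => mob (Fs s + m * t ^ 2) = 0)).card : ℝ) / 2 ≤
          (((Sf m (Fs s) L z).filter (fun t => mob (Fs s + m * t ^ 2) = σ)).card : ℝ) := by
      intro s hs1
      obtain ⟨a1, a2, a3, a4, a5⟩ := hmemS s hs1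
      have hF1 := (hF s hs1).1
      rw [Itv, mem_filter, mem_Mn] at hF1
      have h1 := hW n hn1 z hz1 hzn N u L m s (Fs s) hp1 hp2 (by omega) hp6 (by omega) hm hmi hmu
        a1 a2 a4 a5 hF1.1.1 hF1.1.2 (hF s hs1).2
      refine one_sign hσ ?_ ?_
      · rw [← mul_assoc]
        exact h1.1
      · rw [← mul_assoc]
        exact h1.2
    have h1 := sum_le_sum hone
    rw [sum_sub_distrib, sum_const, nsmul_eq_mul, ← sum_div] at h1
    have h2 : cs * q ^ (u + L) ≤ ((SmI K N (u + L) (L / 8) S).card : ℝ) :=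
      hS N hp11 (u + L) (L / 8) S hp8 hp7 hp9 hSm hSn
    have h3 : (∑ s ∈ SmI K N (u + L) (L / 8) S,
        (((Sf m (Fs s) L z).filter (fun t => mob (Fs s + m * t ^ 2) = σ)).card : ℝ)) ≤
        ((Itv K n (u + 2 * L) g').filter (fun f => mob f = σ)).card := by
      exact_mod_cast hcnt
    have h4 : cv / z ≤ Vp K z := hV z hz1
    have h5 : (0 : ℝ) < q ^ L := by positivity
    have h6 : (0 : ℝ) < q ^ (u + L) := by positivity
    have h7 : q ^ (u + 2 * L) = q ^ (u + L) * q ^ L := by rw [← pow_add]; congr 1; ring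
    have h8 : q ^ (L + (u + L)) = q ^ (u + L) * q ^ L := by rw [← pow_add]; congr 1; ring
    rw [h8] at hnsq
    have h9 : q ^ (u + L) * q ^ L * wt K z ≤ q ^ (u + L) * q ^ L * (cs * cv / (8 * z)) :=
      mul_le_mul_of_nonneg_left hz2 (by positivity)
    have h10 : cs * q ^ (u + L) * (5 / 16 * (cv / z * q ^ L)) ≤
        ((SmI K N (u + L) (L / 8) S).card : ℝ) * (5 / 16 * (Vp K z * q ^ L)) := by
      gcongr
    have h11 : cs * q ^ (u + L) * (5 / 16 * (cv / z * q ^ L)) =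
        5 / 16 * (cs * cv / z) * (q ^ (u + L) * q ^ L) := by ring
    have h12 : q ^ (u + L) * q ^ L * (cs * cv / (8 * z)) =
        1 / 8 * (cs * cv / z) * (q ^ (u + L) * q ^ L) := by
      field_simp
    have h13 : cs * cv / (4 * z) * (q ^ (u + L) * q ^ L) =
        1 / 4 * (cs * cv / z) * (q ^ (u + L) * q ^ L) := by
      field_simp
    rw [h7, h13]
    rw [h11] at h10
    rw [h12] at h9
    linarith
  have hh0 : u + 2 * L ≤ h := by
    have h1 : ((u + 2 * L : ℕ) : ℝ) ≤ h := by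
      refine hp3.trans (le_trans ?_ hh)
      exact mul_le_mul_of_nonneg_right hθ3 (Nat.cast_nonneg n)
    exact_mod_cast h1
  have hdec : ∀ I : Finset K[X], (@Finset.filter K[X] (fun f => mob f = σ)
      (fun f => Classical.propDecidable _) I) = I.filter (fun f => mob f = σ) :=
    fun I => Finset.filter_congr_decidable I (fun f => mob f = σ) _
  have h1 := hc K n (u + 2 * L) h g (fun f => mob f = σ) (cs * cv / (4 * z) * q ^ (u + 2 * L))
    hh0 hhn hg hgn (fun g' h1 h2 => by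
      have h3 := key g' h1 h2
      rw [← hdec] at h3
      exact h3)
  rw [← hdec]
  refine le_trans (le_of_eq ?_) h1
  have h2 : q ^ h = q ^ (h - (u + 2 * L)) * q ^ (u + 2 * L) := by
    rw [← pow_add]
    congr 1
    omega
  rw [h2]
  ring

end Pool.Agent.H996.SI
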