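import Pool.Agent.H996.SI.Base

/-!
# Project SI (helper560), part T1: the window with a sieve
-/

set_option autoImplicit false

namespace Pool.Agent.H996.SI

open Polynomial Finset
open scoped Classical
open Pool.Agent.H694.Typ
open Pool.Agent.H985.Chow (mob)
open Pool.Agent.H985.Par (Sft S_sw)
open Pool.Agent.H560.SI

/-- The sifted window. -/
noncomputable def Sf {K : Type} [Field K] [Fintype K] (m F : K[X]) (L z : ℕ) : Finset K[X] :=
  (Pn K L).filter (fun t => Sft z (F + m * t ^ 2))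

/-- Mertens' product. -/
noncomputable def Vp (K : Type) [Field K] [Fintype K] (z : ℕ) : ℝ :=
  ∏ P ∈ PU K z, (1 - 1 / (Fintype.card K : ℝ) ^ P.natDegree)

theorem Vp_pos (K : Type) [Field K] [Fintype K] (z : ℕ) : 0 < Vp K z := by
  refine prod_pos fun P hP => ?_
  have hq := q_ge (k := K)
  have h1 := (mem_PU.1 hP).2.1.natDegree_pos
  have h2 : (1 : ℝ) < (Fintype.card K : ℝ) ^ P.natDegree :=
    one_lt_pow₀ (by linarith) (by omega)
  rw [sub_pos, div_lt_one (by positivity)]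
  exact h2

/-- exponentials beat linear functions -/
theorem lin_le_rpow {q b C : ℝ} (hq : 2 ≤ q) (hb : 0 < b) (n : ℕ)
    (hn : 8 * C / b ^ 2 ≤ n) : C * n ≤ q ^ (b * n) := by
  have hlog : 1 / 2 ≤ Real.log q := by
    have h1 := Real.log_two_gt_d9
    have h2 : Real.log 2 ≤ Real.log q := Real.log_le_log (by norm_num) hq
    linarith
  have hn0 : (0 : ℝ) ≤ n := Nat.cast_nonneg n
  rw [Real.rpow_def_of_pos (by linarith)]
  have h1 : b * n / 2 ≤ Real.log q * (b * n) := by
    have := mul_le_mul_of_nonneg_right hlog (by positivity : 0 ≤ b * (n : ℝ))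
    linarith
  refine le_trans ?_ (Real.exp_le_exp.2 h1)
  refine le_trans ?_ (Real.quadratic_le_exp_of_nonneg (by positivity))
  rw [div_le_iff₀ (by positivity)] at hn
  have h2 : C * n ≤ (b * n / 2) ^ 2 / 2 := by nlinarith
  have h3 : 0 ≤ b * (n : ℝ) / 2 := by positivity
  linarith

theorem win (hw : S_wb) (hr : S_rtc) (hsw : S_sw) (hv : S_vl) (K : Type) [Field K] [Fintype K]
    [CharP K 2] (lam : ℝ) (hlam : 0 < lam) :
    ∃ κ : ℝ, 0 < κ ∧ ∃ n₀ : ℕ, ∀ n : ℕ, n₀ ≤ n → ∀ z : ℕ, 1 ≤ z → (z : ℝ) ≤ κ * n →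
      ∀ (N u L : ℕ) (m s F : K[X]), n + u = 2 * N + 1 → lam * n ≤ (L : ℝ) → 2 * L + u ≤ n →
        L < 8 * u → z < u → m.Monic → Irreducible m → m.natDegree = u → s.Monic →
        s.natDegree = N → Squarefree s → Smt (L / 8) s → F.Monic → F.natDegree = n →
        derivative (m * F) = s ^ 2 →
        7 / 8 * Vp K z * (Fintype.card K : ℝ) ^ L ≤ (Sf m F L z).card ∧
        |∑ t ∈ Sf m F L z, (mob (F + m * t ^ 2) : ℝ)| ≤
          1 / 4 * Vp K z * (Fintype.card K : ℝ) ^ L := by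
  have hq := q_ge (k := K)
  set q : ℝ := (Fintype.card K : ℝ) with hqd
  have hq0 : 0 < q := by linarith
  obtain ⟨κ₁, c₁, hκ₁, hc₁, n₁, h₁⟩ := hw K lam hlam
  obtain ⟨A, hA⟩ := hsw K 1 (1 / 8) (by norm_num)
  obtain ⟨cv, hcv, hV⟩ := hv K
  have hA1 : (0 : ℝ) < A + 1 := by positivity
  refine ⟨min 1 (min (lam / (A + 1)) (min (κ₁ / (A + 1)) (c₁ / (4 * (A + 1))))), by positivity,
    max n₁ (⌈8 * (16 / cv) / (c₁ / 2) ^ 2⌉₊ + 1), ?_⟩
  intro n hn z hz hzn N u L m s F hnu hL hLn hLu hzu hm hmi hmu hs hsN hsq hsm hF hFn hd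
  have hn1 : n₁ ≤ n := (le_max_left _ _).trans hn
  have hn2 : ⌈8 * (16 / cv) / (c₁ / 2) ^ 2⌉₊ + 1 ≤ n := (le_max_right _ _).trans hn
  have hnpos : (0 : ℝ) < n := by
    have : 0 < n := by omega
    exact_mod_cast this
  have hz1 : (z : ℝ) ≤ n := by
    have h2 : min 1 (min (lam / (A + 1)) (min (κ₁ / (A + 1)) (c₁ / (4 * ((A : ℝ) + 1))))) ≤ 1 :=
      min_le_left _ _
    have := mul_le_mul_of_nonneg_right h2 hnpos.le
    linarith
  have hz2 : ((A : ℝ) + 1) * z ≤ lam * n := by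
    have h2 : min 1 (min (lam / (A + 1)) (min (κ₁ / (A + 1)) (c₁ / (4 * ((A : ℝ) + 1))))) ≤
        lam / (A + 1) := (min_le_right _ _).trans (min_le_left _ _)
    have h3 := (hzn.trans (mul_le_mul_of_nonneg_right h2 hnpos.le))
    rw [div_mul_eq_mul_div, le_div_iff₀ hA1] at h3
    linarith
  have hz3 : ((A : ℝ) + 1) * z ≤ κ₁ * n := by
    have h2 : min 1 (min (lam / (A + 1)) (min (κ₁ / (A + 1)) (c₁ / (4 * ((A : ℝ) + 1))))) ≤
        κ₁ / (A + 1) := (min_le_right _ _).trans ((min_le_right _ _).trans (min_le_left _ _))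
    have h3 := (hzn.trans (mul_le_mul_of_nonneg_right h2 hnpos.le))
    rw [div_mul_eq_mul_div, le_div_iff₀ hA1] at h3
    linarith
  have hz4 : 4 * ((A : ℝ) + 1) * z ≤ c₁ * n := by
    have h2 : min 1 (min (lam / (A + 1)) (min (κ₁ / (A + 1)) (c₁ / (4 * ((A : ℝ) + 1))))) ≤
        c₁ / (4 * (A + 1)) := (min_le_right _ _).trans ((min_le_right _ _).trans (min_le_right _ _))
    have h3 := (hzn.trans (mul_le_mul_of_nonneg_right h2 hnpos.le))
    rw [div_mul_eq_mul_div, le_div_iff₀ (by positivity)] at h3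
    linarith
  have hz0 : (0 : ℝ) ≤ z := Nat.cast_nonneg z
  have hAL : A * z ≤ L := by
    have h2 : ((A * z : ℕ) : ℝ) ≤ L := by
      push_cast
      nlinarith
    exact_mod_cast h2
  -- the classes
  have hcl : ∀ P : K[X], ∃ r : K[X], P.Monic ∧ Irreducible P ∧ P ≠ m →
      r.degree < P.degree ∧ ∀ t : K[X], P ∣ F + m * t ^ 2 ↔ P ∣ t - r := by
    intro P
    by_cases h : P.Monic ∧ Irreducible P ∧ P ≠ m
    · obtain ⟨r, hr1, hr2⟩ := hr K m F P hm hmi h.1 h.2.1 h.2.2
      exact ⟨r, fun _ => ⟨hr1, hr2⟩⟩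
    · exact ⟨0, fun h' => absurd h' h⟩
  choose rr hrr using hcl
  have hPU : ∀ P ∈ PU K z, P.Monic ∧ Irreducible P ∧ P ≠ m := by
    intro P hP
    rw [mem_PU] at hP
    refine ⟨hP.1, hP.2.1, ?_⟩
    rintro rfl
    omega
  have hSW := hA L z (PU K z) (fun P => {rr P}) 1 0 hz hAL (fun P hP => by
      have h2 := mem_PU.1 hP
      exact ⟨h2.1, h2.2.1, h2.2.2, isCoprime_one_left⟩) (fun P hP => by
      have h2 := mem_PU.1 hP
      have h3 := (hrr P (hPU P hP)).1
      refine ⟨by rw [card_singleton], ?_, ?_⟩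
      · rw [card_singleton]
        exact Nat.one_lt_pow h2.2.1.natDegree_pos.ne' Fintype.one_lt_card
      · intro r hr'
        rw [mem_singleton] at hr'
        rw [hr']
        exact h3)
  have hSif : {t : K[X] | t.degree < (L : WithBot ℕ) ∧
      ∀ P ∈ PU K z, ∀ r ∈ ({rr P} : Finset K[X]), ¬ P ∣ 0 + 1 * t - r} =
      ((Sf m F L z : Finset K[X]) : Set K[X]) := by
    ext t
    rw [Finset.mem_coe, Sf, mem_filter, mem_Pn]
    refine and_congr_right fun _ => ?_
    constructor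
    · intro h P hP hPi hPd
      by_contra hcon
      have hPz : P ∈ PU K z := mem_PU.2 ⟨hP, hPi, not_lt.1 hcon⟩
      have h2 := h P hPz (rr P) (mem_singleton_self _)
      rw [zero_add, one_mul] at h2
      exact h2 (((hrr P (hPU P hPz)).2 t).1 hPd)
    · intro h P hP r hr' hPd
      rw [mem_singleton] at hr'
      rw [hr', zero_add, one_mul] at hPd
      have h2 := mem_PU.1 hP
      have h3 := h P h2.1 h2.2.1 (((hrr P (hPU P hP)).2 t).2 hPd)
      omega
  have hVe : ∏ P ∈ PU K z, (1 - ((({rr P} : Finset K[X]).card : ℕ) : ℝ) /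
      (Fintype.card K : ℝ) ^ P.natDegree) = Vp K z := by
    refine prod_congr rfl fun P _ => ?_
    rw [card_singleton, Nat.cast_one]
  dsimp only at hSW
  rw [hSif, hVe, Set.ncard_coe_finset] at hSW
  obtain ⟨hS1, -, hS3⟩ := hSW
  have hVpos := Vp_pos K z
  have hqL : (0 : ℝ) < q ^ L := by positivity
  refine ⟨?_, ?_⟩
  · rw [← hqd] at hS1
    linarith
  · have hB := hS3 (fun t => (mob (F + m * t ^ 2) : ℝ)) (q ^ ((L : ℝ) - c₁ * n))
      (fun t => abs_mob _) (by positivity) (fun D r L' hD _ hDL hDz hrD => by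
        have hrL : r.degree < (L : WithBot ℕ) := by
          refine hrD.trans_le ?_
          rw [degree_eq_natDegree hD.ne_zero]
          exact_mod_cast (show D.natDegree ≤ L by omega)
        have h2 : ∀ v : K[X], F + m * (r + D * v) ^ 2 = (F + m * r ^ 2) + m * (D * v) ^ 2 := by
          intro v
          rw [add_sq']
          ring
        have h3 : (m * r ^ 2).degree < F.degree := by
          by_cases hr0 : r = 0
          · rw [hr0, zero_pow two_ne_zero, mul_zero, degree_zero,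
              degree_eq_natDegree hF.ne_zero]
            exact WithBot.bot_lt_coe _
          · rw [degree_eq_natDegree (mul_ne_zero hm.ne_zero (pow_ne_zero 2 hr0)),
              degree_eq_natDegree hF.ne_zero, natDegree_mul hm.ne_zero (pow_ne_zero 2 hr0),
              natDegree_pow, hmu, hFn]
            have h4 := (natDegree_lt_iff_degree_lt hr0).2 hrL
            exact_mod_cast (show u + 2 * r.natDegree < n by omega)
        have h5 := h₁ n hn1 N u L L' m s (F + m * r ^ 2) D hnu hL hLn hLu hm hmi hmu hs hsN hsq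
          hsm (hF.add_of_left h3) (by rw [natDegree_add_eq_left_of_degree_lt h3, hFn])
          (by rw [der_add, hd]) hD (by
            have h6 : (D.natDegree : ℝ) ≤ A * z := by exact_mod_cast hDz
            linarith) hDL
        simp only [h2]
        exact h5)
    rw [finsum_mem_coe_finset] at hB
    refine hB.trans ?_
    have hVz : cv / n ≤ Vp K z := by
      refine le_trans ?_ (hV z hz)
      have hz' : (0 : ℝ) < z := by exact_mod_cast hz
      exact div_le_div_of_nonneg_left hcv.le hz' hz1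
    have h6 : (((1 : ℕ) + 1 : ℝ) * q) ^ (A * z) ≤ q ^ (c₁ / 2 * (n : ℝ)) := by
      have h7 : ((1 : ℕ) + 1 : ℝ) * q ≤ q ^ (2 : ℕ) := by
        push_cast
        nlinarith
      refine (pow_le_pow_left₀ (by positivity) h7 _).trans ?_
      rw [← pow_mul, ← Real.rpow_natCast]
      refine Real.rpow_le_rpow_of_exponent_le (by linarith) ?_
      push_cast
      nlinarith
    have h8 : 16 / cv * n ≤ q ^ (c₁ / 2 * (n : ℝ)) := by
      refine lin_le_rpow hq (by positivity) n ?_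
      refine (Nat.le_ceil _).trans ?_
      exact_mod_cast (show ⌈8 * (16 / cv) / (c₁ / 2) ^ 2⌉₊ ≤ n by omega)
    have h9 : q ^ ((L : ℝ) - c₁ * n) * q ^ (c₁ / 2 * (n : ℝ)) * q ^ (c₁ / 2 * (n : ℝ)) = q ^ L := by
      rw [← Real.rpow_add hq0, ← Real.rpow_add hq0, ← Real.rpow_natCast]
      congr 1
      ring
    have hB0 : 0 < q ^ ((L : ℝ) - c₁ * n) := by positivity
    have hC0 : 0 < q ^ (c₁ / 2 * (n : ℝ)) := by positivity
    have h10 : q ^ (c₁ / 2 * (n : ℝ)) * q ^ ((L : ℝ) - c₁ * n) ≤ cv / (16 * n) * q ^ L := by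
      rw [← h9]
      have h11 : 1 ≤ cv / (16 * n) * q ^ (c₁ / 2 * (n : ℝ)) := by
        have h12 : cv / (16 * n) * (16 / cv * n) = 1 := by field_simp
        rw [← h12]
        exact mul_le_mul_of_nonneg_left h8 (by positivity)
      have h13 : 0 ≤ q ^ (c₁ / 2 * (n : ℝ)) * q ^ ((L : ℝ) - c₁ * n) := by positivity
      have h14 := mul_le_mul_of_nonneg_left h11 h13
      calc q ^ (c₁ / 2 * (n : ℝ)) * q ^ ((L : ℝ) - c₁ * n)
          = q ^ (c₁ / 2 * (n : ℝ)) * q ^ ((L : ℝ) - c₁ * n) * 1 := by ring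
        _ ≤ _ := h14
        _ = _ := by ring
    have h15 : 2 * (((1 : ℕ) + 1 : ℝ) * q) ^ (A * z) * q ^ ((L : ℝ) - c₁ * n) ≤
        1 / 8 * Vp K z * q ^ L := by
      calc 2 * (((1 : ℕ) + 1 : ℝ) * q) ^ (A * z) * q ^ ((L : ℝ) - c₁ * n)
          ≤ 2 * q ^ (c₁ / 2 * (n : ℝ)) * q ^ ((L : ℝ) - c₁ * n) := by gcongr
        _ = 2 * (q ^ (c₁ / 2 * (n : ℝ)) * q ^ ((L : ℝ) - c₁ * n)) := by ring
        _ ≤ 2 * (cv / (16 * n) * q ^ L) := by gcongr
        _ = 1 / 8 * (cv / n) * q ^ L := by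
          field_simp
          ring
        _ ≤ _ := by gcongr
    linarith

end Pool.Agent.H996.SI
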